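import Pool.Agent.H22.FOT.Defs2

/-! Board `fog`, row NLE: chessboard estimate for weighted path kernels. -/

open MeasureTheory Set

namespace Pool.FOT.N97

variable {Ω : Type} [MeasurableSpace Ω]

/-- The trace of a cyclic word. -/
noncomputable def Tr (μ : Measure Ω) (f : Ω → Ω → ℝ) : List (Ω → ℝ) → ℝ
  | [] => 0
  | τ :: l => ∫ x, τ x * pth μ f l x x ∂μ

theorem integ {α : Type} [MeasurableSpace α] {ν : Measure α} [IsProbabilityMeasure ν] {F : α → ℝ}
    (h : Measurable F) (hb : ∀ x, |F x| ≤ 1) : Integrable F ν :=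
  Integrable.of_bound h.aestronglyMeasurable 1 (Filter.Eventually.of_forall fun x => hb x)

theorem cs {α : Type} [MeasurableSpace α] {ν : Measure α} [IsProbabilityMeasure ν] {F G : α → ℝ}
    (hF : Measurable F) (hG : Measurable G) (bF : ∀ x, |F x| ≤ 1) (bG : ∀ x, |G x| ≤ 1) :
    (∫ x, F x * G x ∂ν) ^ 2 ≤ (∫ x, F x ^ 2 ∂ν) * ∫ x, G x ^ 2 ∂ν := by
  have i1 : Integrable (fun x => F x ^ 2) ν := integ (hF.pow_const 2) fun x => by
    rw [abs_pow]
    exact pow_le_one₀ (abs_nonneg _) (bF x)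
  have i2 : Integrable (fun x => G x ^ 2) ν := integ (hG.pow_const 2) fun x => by
    rw [abs_pow]
    exact pow_le_one₀ (abs_nonneg _) (bG x)
  have i3 : Integrable (fun x => F x * G x) ν := integ (hF.mul hG) fun x => by
    rw [abs_mul]
    exact mul_le_one₀ (bF x) (abs_nonneg _) (bG x)
  have h : ∀ t : ℝ, 0 ≤ (∫ x, G x ^ 2 ∂ν) * (t * t) + (2 * ∫ x, F x * G x ∂ν) * t +
      ∫ x, F x ^ 2 ∂ν := by
    intro t
    have e : (∫ x, G x ^ 2 ∂ν) * (t * t) + (2 * ∫ x, F x * G x ∂ν) * t + ∫ x, F x ^ 2 ∂ν =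
        ∫ x, (G x ^ 2 * (t * t) + (F x * G x) * (2 * t) + F x ^ 2) ∂ν := by
      have a1 : ∫ x, (G x ^ 2 * (t * t) + (F x * G x) * (2 * t) + F x ^ 2) ∂ν =
          ∫ x, (G x ^ 2 * (t * t) + (F x * G x) * (2 * t)) ∂ν + ∫ x, F x ^ 2 ∂ν :=
        integral_add ((i2.mul_const _).add (i3.mul_const _)) i1
      have a2 : ∫ x, (G x ^ 2 * (t * t) + (F x * G x) * (2 * t)) ∂ν =
          ∫ x, G x ^ 2 * (t * t) ∂ν + ∫ x, (F x * G x) * (2 * t) ∂ν :=
        integral_add (i2.mul_const _) (i3.mul_const _)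
      rw [a1, a2, integral_mul_const, integral_mul_const]
      ring
    rw [e]
    refine integral_nonneg fun x => ?_
    show 0 ≤ G x ^ 2 * (t * t) + (F x * G x) * (2 * t) + F x ^ 2
    nlinarith [sq_nonneg (F x + t * G x)]
  have h2 := discrim_le_zero h
  unfold discrim at h2
  nlinarith

theorem cs' {α : Type} [MeasurableSpace α] {ν : Measure α} [IsProbabilityMeasure ν]
    {F G F' G' : α → ℝ}
    (hF : Measurable F) (hG : Measurable G) (hF' : Measurable F') (hG' : Measurable G')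
    (bF : ∀ x, |F x| ≤ 1) (bG : ∀ x, |G x| ≤ 1)
    (dF : ∀ x, |F' x| ≤ |F x|) (dG : ∀ x, |G' x| ≤ |G x|) :
    (∫ x, F' x * G' x ∂ν) ^ 2 ≤ (∫ x, F x ^ 2 ∂ν) * ∫ x, G x ^ 2 ∂ν := by
  refine (cs hF' hG' (fun x => (dF x).trans (bF x)) (fun x => (dG x).trans (bG x))).trans ?_
  have i1 : ∀ {H : α → ℝ}, Measurable H → (∀ x, |H x| ≤ 1) → Integrable (fun x => H x ^ 2) ν :=
    fun {H} h hb => integ (h.pow_const 2) fun x => by
      rw [abs_pow]
      exact pow_le_one₀ (abs_nonneg _) (hb x)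
  refine mul_le_mul ?_ ?_ (integral_nonneg fun x => sq_nonneg _)
    (integral_nonneg fun x => sq_nonneg _)
  · refine integral_mono (i1 hF' fun x => (dF x).trans (bF x)) (i1 hF bF) fun x => ?_
    exact sq_le_sq.2 (dF x)
  · refine integral_mono (i1 hG' fun x => (dG x).trans (bG x)) (i1 hG bG) fun x => ?_
    exact sq_le_sq.2 (dG x)

section main

variable {μ : Measure Ω} [IsProbabilityMeasure μ] {f : Ω → Ω → ℝ}

/-- The facts of `PTB`. -/
structure Pt (μ : Measure Ω) (f : Ω → Ω → ℝ) : Prop where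
  meas : ∀ l : List (Ω → ℝ), WOk l → Measurable (fun z : Ω × Ω => pth μ f l z.1 z.2)
  bd : ∀ l : List (Ω → ℝ), WOk l → ∀ x y, |pth μ f l x y| ≤ 1
  rev : ∀ l : List (Ω → ℝ), WOk l → ∀ x y, pth μ f l.reverse x y = pth μ f l y x
  app : ∀ (l : List (Ω → ℝ)) (τ : Ω → ℝ) (l' : List (Ω → ℝ)), WOk l → WOk [τ] → WOk l' →
      ∀ x y, pth μ f (l ++ τ :: l') x y = ∫ z, pth μ f l x z * (τ z * pth μ f l' z y) ∂μ

theorem Tr_two (H : Pt μ f) {a b : Ω → ℝ} {l l' : List (Ω → ℝ)} (ha : WOk [a]) (hb : WOk [b])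
    (hl : WOk l) (hl' : WOk l') :
    Tr μ f (a :: (l ++ b :: l')) =
      ∫ z : Ω × Ω, (a z.1 * pth μ f l z.1 z.2) * (b z.2 * pth μ f l' z.2 z.1) ∂(μ.prod μ) := by
  have ha' := ha a (List.mem_singleton.2 rfl)
  have hb' := hb b (List.mem_singleton.2 rfl)
  have m1 : Measurable (fun z : Ω × Ω => a z.1 * pth μ f l z.1 z.2) :=
    (ha'.1.comp measurable_fst).mul (H.meas l hl)
  have m2 : Measurable (fun z : Ω × Ω => b z.2 * pth μ f l' z.2 z.1) :=
    (hb'.1.comp measurable_snd).mul ((H.meas l' hl').comp measurable_swap)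
  have hint : Integrable (fun z : Ω × Ω => (a z.1 * pth μ f l z.1 z.2) *
      (b z.2 * pth μ f l' z.2 z.1)) (μ.prod μ) := by
    refine integ (m1.mul m2) fun z => ?_
    rw [abs_mul, abs_mul, abs_mul]
    exact mul_le_one₀ (mul_le_one₀ (ha'.2 _) (abs_nonneg _) (H.bd l hl _ _)) (by positivity)
      (mul_le_one₀ (hb'.2 _) (abs_nonneg _) (H.bd l' hl' _ _))
  rw [integral_prod _ hint]
  unfold Tr
  refine integral_congr_ae (Filter.Eventually.of_forall fun x => ?_)
  show a x * pth μ f (l ++ b :: l') x x =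
    ∫ z, (a x * pth μ f l x z) * (b z * pth μ f l' z x) ∂μ
  rw [H.app l b l' hl hb hl' x x, ← integral_const_mul]
  refine integral_congr_ae (Filter.Eventually.of_forall fun z => ?_)
  show a x * (pth μ f l x z * (b z * pth μ f l' z x)) =
    (a x * pth μ f l x z) * (b z * pth μ f l' z x)
  ring

theorem Tr_rot (H : Pt μ f) {a b : Ω → ℝ} {l l' : List (Ω → ℝ)} (ha : WOk [a]) (hb : WOk [b])
    (hl : WOk l) (hl' : WOk l') :
    Tr μ f (a :: (l ++ b :: l')) = Tr μ f (b :: (l' ++ a :: l)) := by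
  rw [Tr_two H ha hb hl hl', Tr_two H hb ha hl' hl, ← integral_prod_swap]
  refine integral_congr_ae (Filter.Eventually.of_forall fun z => ?_)
  show (a z.2 * pth μ f l z.2 z.1) * (b z.1 * pth μ f l' z.1 z.2) =
    (b z.1 * pth μ f l' z.1 z.2) * (a z.2 * pth μ f l z.2 z.1)
  ring

theorem Tr_cs (H : Pt μ f) {a b : Ω → ℝ} {l l' : List (Ω → ℝ)} (ha : WOk [a]) (hb : WOk [b])
    (hl : WOk l) (hl' : WOk l') :
    Tr μ f (a :: (l ++ b :: l')) ^ 2 ≤ pN μ f l * pN μ f l' := by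
  have ha' := ha a (List.mem_singleton.2 rfl)
  have hb' := hb b (List.mem_singleton.2 rfl)
  have m1 : Measurable (fun z : Ω × Ω => a z.1 * pth μ f l z.1 z.2) :=
    (ha'.1.comp measurable_fst).mul (H.meas l hl)
  have m2 : Measurable (fun z : Ω × Ω => b z.2 * pth μ f l' z.2 z.1) :=
    (hb'.1.comp measurable_snd).mul ((H.meas l' hl').comp measurable_swap)
  rw [Tr_two H ha hb hl hl']
  have h := cs' (ν := μ.prod μ) (F := fun z => pth μ f l z.1 z.2)
    (G := fun z => pth μ f l' z.2 z.1) (H.meas l hl) ((H.meas l' hl').comp measurable_swap) m1 m2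
    (fun z => H.bd l hl _ _) (fun z => H.bd l' hl' _ _)
    (fun z => by
      show |a z.1 * pth μ f l z.1 z.2| ≤ |pth μ f l z.1 z.2|
      rw [abs_mul]
      exact mul_le_of_le_one_left (abs_nonneg _) (ha'.2 _))
    (fun z => by
      show |b z.2 * pth μ f l' z.2 z.1| ≤ |pth μ f l' z.2 z.1|
      rw [abs_mul]
      exact mul_le_of_le_one_left (abs_nonneg _) (hb'.2 _))
  refine h.trans (le_of_eq ?_)
  unfold pN
  congr 1
  rw [← integral_prod_swap (fun z : Ω × Ω => pth μ f l' z.1 z.2 ^ 2)]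
  rfl

theorem one_ok : WOk [(fun _ => 1 : Ω → ℝ)] := by
  intro τ h
  rw [List.mem_singleton.1 h]
  exact ⟨measurable_const, fun x => by simp⟩

theorem rep_ok (n : ℕ) : WOk (List.replicate n (fun _ => 1 : Ω → ℝ)) := by
  intro τ h
  rw [List.eq_of_mem_replicate h]
  exact ⟨measurable_const, fun x => by simp⟩

theorem ok_app {l l' : List (Ω → ℝ)} (h : WOk l) (h' : WOk l') : WOk (l ++ l') := by
  intro τ ht
  rcases List.mem_append.1 ht with h1 | h1
  · exact h τ h1
  · exact h' τ h1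

theorem ok_cons {a : Ω → ℝ} {l : List (Ω → ℝ)} (h : WOk [a]) (h' : WOk l) : WOk (a :: l) :=
  ok_app h h'

theorem ok_rev {l : List (Ω → ℝ)} (h : WOk l) : WOk l.reverse := fun τ ht =>
  h τ (List.mem_reverse.1 ht)

theorem ok_sub {l l' : List (Ω → ℝ)} (h : WOk l) (h' : ∀ τ ∈ l', τ ∈ l) : WOk l' := fun τ ht =>
  h τ (h' τ ht)

theorem pN_Tr (H : Pt μ f) {l : List (Ω → ℝ)} (hl : WOk l) :
    pN μ f l = Tr μ f ((fun _ => 1) :: (l ++ (fun _ => 1) :: l.reverse)) := by
  rw [Tr_two H one_ok one_ok hl (ok_rev hl)]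
  unfold pN
  refine integral_congr_ae (Filter.Eventually.of_forall fun z => ?_)
  show pth μ f l z.1 z.2 ^ 2 = (1 * pth μ f l z.1 z.2) * (1 * pth μ f l.reverse z.2 z.1)
  rw [H.rev l hl]
  ring

omit [IsProbabilityMeasure μ] in
theorem pN_nonneg (l : List (Ω → ℝ)) : 0 ≤ pN μ f l := by
  unfold pN
  exact integral_nonneg fun z => sq_nonneg _

theorem pN_le (H : Pt μ f) {l : List (Ω → ℝ)} (hl : WOk l) : pN μ f l ≤ 1 := by
  unfold pN
  have h1 : ∫ z : Ω × Ω, pth μ f l z.1 z.2 ^ 2 ∂(μ.prod μ) ≤ ∫ _z : Ω × Ω, (1 : ℝ) ∂(μ.prod μ) := by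
    refine integral_mono ?_ (integrable_const _) fun z => ?_
    · refine integ ((H.meas l hl).pow_const 2) fun z => ?_
      rw [abs_pow]
      exact pow_le_one₀ (abs_nonneg _) (H.bd l hl _ _)
    · show pth μ f l z.1 z.2 ^ 2 ≤ 1
      rw [← sq_abs]
      exact pow_le_one₀ (abs_nonneg _) (H.bd l hl _ _)
  simpa using h1

theorem pN_rev (H : Pt μ f) {l : List (Ω → ℝ)} (hl : WOk l) : pN μ f l.reverse = pN μ f l := by
  unfold pN
  rw [← integral_prod_swap (fun z : Ω × Ω => pth μ f l z.1 z.2 ^ 2)]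
  refine integral_congr_ae (Filter.Eventually.of_forall fun z => ?_)
  show pth μ f l.reverse z.1 z.2 ^ 2 = pth μ f l z.2 z.1 ^ 2
  rw [H.rev l hl]

/-- One step: from `j` ones at the beginning to `j + 1`. -/
theorem step (H : Pt μ f) {s : Ω → ℝ} {v : List (Ω → ℝ)} {j : ℕ} (hs : WOk [s]) (hv : WOk v) :
    ∃ R R' : List (Ω → ℝ), WOk R ∧ WOk R' ∧ R.length = j + 1 + v.length ∧
      j + 1 + R'.length = j + 1 + v.length ∧
      pN μ f (List.replicate j (fun _ => 1) ++ s :: v) ^ 2 ≤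
        pN μ f R * pN μ f (List.replicate (j + 1) (fun _ => 1) ++ R') := by
  obtain ⟨o, ho⟩ : ∃ o : Ω → ℝ, o = fun _ => 1 := ⟨_, rfl⟩
  rw [← ho]
  have ok1 : WOk [o] := by rw [ho]; exact one_ok
  have okr : ∀ n, WOk (List.replicate n o) := by rw [ho]; exact rep_ok
  have hl : WOk (List.replicate j o ++ s :: v) := ok_app (okr j) (ok_cons hs hv)
  obtain ⟨k, hk⟩ : ∃ k, k = j + 1 + v.length := ⟨_, rfl⟩
  -- the word after the rotation
  obtain ⟨w0, hw0⟩ : ∃ w0 : List (Ω → ℝ), w0 = v ++ o :: (v.reverse ++ s :: List.replicate j o) :=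
    ⟨_, rfl⟩
  have okw0 : WOk w0 := by
    rw [hw0]
    exact ok_app hv (ok_cons ok1 (ok_app (ok_rev hv) (ok_cons hs (okr j))))
  have lw0 : w0.length = 2 * v.length + 2 + j := by
    rw [hw0]
    simp
    omega
  have e1 : pN μ f (List.replicate j o ++ s :: v) =
      Tr μ f (s :: (w0 ++ List.replicate (j + 1) o)) := by
    rw [pN_Tr H hl, ← ho]
    have e2 : (List.replicate j o ++ s :: v) ++ o :: (List.replicate j o ++ s :: v).reverse =
        List.replicate j o ++ s :: w0 := by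
      rw [hw0]
      simp
    rw [e2, Tr_rot H ok1 hs (okr j) okw0]
    rfl
  have e2 : w0 ++ List.replicate (j + 1) o =
      (w0.take k ++ w0.drop k) ++ List.replicate (j + 1) o := by
    rw [List.take_append_drop]
  have hlen : k < w0.length := by omega
  have e3 : w0.drop k = w0[k] :: w0.drop (k + 1) := List.drop_eq_getElem_cons hlen
  have e4 : s :: (w0 ++ List.replicate (j + 1) o) =
      s :: (w0.take k ++ w0[k] :: (w0.drop (k + 1) ++ List.replicate (j + 1) o)) := by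
    rw [← List.cons_append (a := w0[k]), ← e3, ← List.append_assoc, List.take_append_drop]
  have okt : WOk (w0.take k) := ok_sub okw0 fun τ ht => List.mem_of_mem_take ht
  have okd : WOk (w0.drop (k + 1)) := ok_sub okw0 fun τ ht => List.mem_of_mem_drop ht
  have okk : WOk [w0[k]] := ok_sub okw0 fun τ ht => by
    rw [List.mem_singleton.1 ht]
    exact List.getElem_mem hlen
  have okd2 := ok_app okd (okr (j + 1))
  refine ⟨w0.take k, (w0.drop (k + 1)).reverse, okt, ok_rev okd, ?_, ?_, ?_⟩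
  · rw [List.length_take]
    omega
  · rw [List.length_reverse, List.length_drop]
    omega
  · have h1 := Tr_cs H hs okk okt okd2
    rw [← e4, ← e1] at h1
    refine h1.trans (le_of_eq ?_)
    rw [← pN_rev H okd2]
    congr 2
    simp

theorem main (H : Pt μ f) (l : List (Ω → ℝ)) (hl : WOk l) :
    pN μ f l ≤ pN μ f (List.replicate l.length fun _ => 1) := by
  obtain ⟨k, hk⟩ : ∃ k, k = l.length := ⟨_, rfl⟩
  obtain ⟨A, hA⟩ : ∃ A : Set ℝ, A = {x | ∃ l : List (Ω → ℝ), WOk l ∧ l.length = k ∧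
    x = pN μ f l} := ⟨_, rfl⟩
  have hbd : BddAbove A := ⟨1, by
    rintro x hx
    rw [hA] at hx
    obtain ⟨l, h1, -, rfl⟩ := hx
    exact pN_le H h1⟩
  have hle : ∀ l' : List (Ω → ℝ), WOk l' → l'.length = k → pN μ f l' ≤ sSup A := by
    intro l' h1 h2
    refine le_csSup hbd ?_
    rw [hA]
    exact ⟨l', h1, h2, rfl⟩
  have hne : A.Nonempty := ⟨pN μ f l, by
    rw [hA]
    exact ⟨l, hl, hk.symm, rfl⟩⟩
  have hcl : ∀ j, j ≤ k → ∀ ε : ℝ, 0 < ε → ∃ v : List (Ω → ℝ), WOk v ∧ j + v.length = k ∧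
      sSup A - ε < pN μ f (List.replicate j (fun _ => 1) ++ v) := by
    intro j
    induction j with
    | zero =>
      intro _ ε hε
      obtain ⟨x, hx, hx2⟩ := exists_lt_of_lt_csSup hne (sub_lt_self (sSup A) hε)
      rw [hA] at hx
      obtain ⟨l', h1, h2, rfl⟩ := hx
      exact ⟨l', h1, by omega, by simpa using hx2⟩
    | succ j ih =>
      intro hj ε hε
      obtain ⟨v, hv, hvl, hv2⟩ := ih (by omega) (ε / 2) (by positivity)
      obtain ⟨s, v, rfl⟩ : ∃ s v', v = s :: v' := by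
        cases v with
        | nil => simp at hvl; omega
        | cons s v' => exact ⟨s, v', rfl⟩
      have hs : WOk [s] := ok_sub hv fun τ ht => by
        rw [List.mem_singleton.1 ht]
        simp
      have hv' : WOk v := ok_sub hv fun τ ht => by simp [ht]
      obtain ⟨R, R', h1, h2, h3, h4, h5⟩ := step H (j := j) hs hv'
      rw [List.length_cons] at hvl
      refine ⟨R', h2, by omega, ?_⟩
      have h6 := hle R h1 (by omega)
      have h7 := pN_nonneg (μ := μ) (f := f) (List.replicate (j + 1) (fun _ => 1) ++ R')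
      have h8 := pN_nonneg (μ := μ) (f := f) (List.replicate j (fun _ => 1) ++ s :: v)
      by_contra hcon
      rw [not_lt] at hcon
      obtain ⟨M, hM⟩ : ∃ M, M = sSup A := ⟨_, rfl⟩
      rw [← hM] at hv2 h6 hcon
      obtain ⟨x, hx⟩ : ∃ x, x = pN μ f (List.replicate j (fun _ => 1) ++ s :: v) := ⟨_, rfl⟩
      obtain ⟨y, hy⟩ : ∃ y, y = pN μ f (List.replicate (j + 1) (fun _ => 1) ++ R') := ⟨_, rfl⟩
      rw [← hx] at hv2 h8 h5
      rw [← hy] at h7 hcon h5
      have h9 : x ^ 2 ≤ M * y := h5.trans (mul_le_mul_of_nonneg_right h6 h7)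
      have hM0 : ε ≤ M := by linarith
      nlinarith
  refine (hle l hl hk.symm).trans ?_
  refine le_of_forall_sub_le fun ε hε => ?_
  obtain ⟨v, hv, hvl, hv2⟩ := hcl k le_rfl ε hε
  have : v = [] := List.length_eq_zero_iff.1 (by omega)
  rw [this, List.append_nil] at hv2
  rw [← hk]
  exact hv2.le

end main

end Pool.FOT.N97

namespace Pool.FOT

theorem t_nle (h1 : PTBStmt) : NLEStmt := by
  intro Ω _ μ _ f hs hm hb l hl
  obtain ⟨h2, h3⟩ := h1 Ω μ f hs hm hb
  exact N97.main ⟨fun l hl => (h2 l hl).1, fun l hl => (h2 l hl).2.1, fun l hl => (h2 l hl).2.2,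
    h3⟩ l hl

end Pool.FOT
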